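import Pool.Agent.CPW.Fin
import Pool.Agent.CPW.F.Fpt

/-!
# Partition into `k` sets in convex position is W[1]-hard

A polynomial time computable function maps a graph `G` and a number `k` to the number `10 k` and a
finite set `S` of points with rational coordinates (numerators and denominators in unary) such that
`G` has a clique with `k` vertices iff `S` can be partitioned into at most `10 k` sets in convex
position. So if the partition problem is fixed-parameter tractable then so is the clique problem.
-/

set_option autoImplicit false

namespace Pool.Agent.Results.MP_7a5d02_lc.WOneHard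

open Turing Computability Pool.Agent.CPW

/-- **Partition into `k` sets in convex position, with parameter `k`, is as hard as `k`-clique.** -/
theorem result :
    (∃ f : CInst → PInst, Nonempty (TM2ComputableInPolyTime encC encP f) ∧
      ∀ I : CInst, (f I).1 = 10 * I.k ∧
        ((∃ s : Finset (Fin I.n), I.G.IsNClique I.k s) ↔ CP (pts (f I)) ≤ (f I).1)) ∧
    (IsFPT encP (fun P => P.1) (fun P => CP (pts P) ≤ P.1) →
      IsFPT encC (fun I => I.k) (fun I => ∃ s : Finset (Fin I.n), I.G.IsNClique I.k s)) := by
  refine ⟨final, fun h => ?_⟩
  obtain ⟨f, hf, hI⟩ := final
  exact isFPT_of_reduction f hf (fun k => 10 * k)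
    ((Primrec.nat_mul.comp (Primrec.const 10) Primrec.id).to_comp) (fun I => (hI I).1)
    (fun I => (hI I).2) h

end Pool.Agent.Results.MP_7a5d02_lc.WOneHard
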